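import Pool.Agent.Q289.OP.Stm

/-!
# Project OP (helper289), job S_LC (helper151)
-/

set_option autoImplicit false
set_option linter.all false

namespace Pool.Agent.Q151.OP

open Q289.OP

theorem lc : Q289.OP.S_LC := by
  intro s C γ h0 h1 hγ h2
  rcases eq_or_lt_of_le (h0 0) with hs0 | hs0
  · have h3 := h1 0
    rw [← hs0, zero_mul] at h3
    have h4 : s 1 = 0 := pow_eq_zero_iff two_ne_zero |>.1 (le_antisymm h3 (sq_nonneg _))
    rw [h4, ← hs0, mul_zero]
  by_contra hcon
  push Not at hcon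
  obtain ⟨r, hr⟩ : ∃ r, r = s 1 / s 0 := ⟨_, rfl⟩
  have hr1 : s 1 = r * s 0 := by
    rw [hr]
    field_simp
  have hrγ : γ < r := by
    rw [hr, lt_div_iff₀ hs0]
    exact hcon
  have hr0 : 0 < r := lt_of_le_of_lt hγ hrγ
  have h3 : ∀ m, 0 < s m ∧ r * s m ≤ s (m + 1) := by
    intro m
    induction m with
    | zero => exact ⟨hs0, hr1.ge⟩
    | succ m ih =>
      obtain ⟨ih1, ih2⟩ := ih
      have h4 : 0 < s (m + 1) := lt_of_lt_of_le (mul_pos hr0 ih1) ih2
      refine ⟨h4, ?_⟩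
      have h5 := h1 m
      have h6 : s m * (r * s (m + 1)) ≤ s m * s (m + 2) := by
        calc s m * (r * s (m + 1)) = (r * s m) * s (m + 1) := by ring
          _ ≤ s (m + 1) * s (m + 1) := mul_le_mul_of_nonneg_right ih2 h4.le
          _ = s (m + 1) ^ 2 := by ring
          _ ≤ _ := h5
      exact le_of_mul_le_mul_left h6 ih1
  have h4 : ∀ m, r ^ m * s 0 ≤ s m := by
    intro m
    induction m with
    | zero => simp
    | succ m ih =>
      calc r ^ (m + 1) * s 0 = r * (r ^ m * s 0) := by ring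
        _ ≤ r * s m := mul_le_mul_of_nonneg_left ih hr0.le
        _ ≤ _ := (h3 m).2
  have h5 : ∀ m, r ^ (2 * m) * s 0 ≤ C * γ ^ (2 * m) := fun m => (h4 (2 * m)).trans (h2 m)
  rcases eq_or_lt_of_le hγ with hγ0 | hγ0
  · have h6 := h5 1
    rw [← hγ0] at h6
    have h7 : 0 < r ^ (2 * 1) * s 0 := by positivity
    norm_num at h6
    norm_num at h7
    linarith
  · have h6 : 1 < (r / γ) ^ 2 := by
      have h7 : 1 < r / γ := (one_lt_div hγ0).2 hrγ
      exact one_lt_pow₀ h7 two_ne_zero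
    obtain ⟨m, hm⟩ := pow_unbounded_of_one_lt (C / s 0) h6
    have h7 := h5 m
    rw [← pow_mul, div_pow, div_lt_div_iff₀ hs0 (by positivity)] at hm
    linarith

end Pool.Agent.Q151.OP
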