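import Pool.Agent.Q289.OP.Stm

/-!
# Project OP (helper289), job S_1OP (helper151): one particle
-/

set_option autoImplicit false
set_option linter.all false

namespace Pool.Agent.Q151.OP

open Q289.OP Finset

section
variable {N : ℕ} (q : Fin (N + 1) → ℝ)

/-- bilinear form -/
noncomputable def ip (g h : Fin (N + 1) → ℝ) : ℝ := ∑ b, q b * (g b * h b)

/-- Dirichlet form -/
noncomputable def DD (g h : Fin (N + 1) → ℝ) : ℝ :=
  ∑ a : Fin N, q a.castSucc * q a.succ / (q a.castSucc + q a.succ) *
    ((g a.succ - g a.castSucc) * (h a.succ - h a.castSucc))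

variable {q} (hq : ∀ b, 0 < q b)

theorem ne_a (a : Fin N) : a.castSucc ≠ a.succ := by
  intro h
  have := congrArg Fin.val h
  simp at this

theorem t1_eq (a : Fin N) (g : Fin (N + 1) → ℝ) (b : Fin (N + 1)) :
    t1 q a g b = g b + ((if b = a.castSucc then
      (q a.castSucc * g a.castSucc + q a.succ * g a.succ) / (q a.castSucc + q a.succ) -
        g a.castSucc else 0) + if b = a.succ then
      (q a.castSucc * g a.castSucc + q a.succ * g a.succ) / (q a.castSucc + q a.succ) -
        g a.succ else 0) := by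
  unfold t1
  have hne := ne_a a
  by_cases h1 : b = a.castSucc
  · rw [if_pos (Or.inl h1), if_pos h1, if_neg (by rw [h1]; exact hne), h1]
    ring
  · by_cases h2 : b = a.succ
    · rw [if_pos (Or.inr h2), if_neg h1, if_pos h2, h2]
      ring
    · rw [if_neg (by tauto), if_neg h1, if_neg h2]
      ring

include hq in
theorem ip_t1 (a : Fin N) (g h : Fin (N + 1) → ℝ) :
    ip q (t1 q a g) h = ip q g h - q a.castSucc * q a.succ / (q a.castSucc + q a.succ) *
    ((g a.succ - g a.castSucc) * (h a.succ - h a.castSucc)) := by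
  have hpos : q a.castSucc + q a.succ ≠ 0 := (add_pos (hq _) (hq _)).ne'
  have e : ∀ b, q b * (t1 q a g b * h b) = q b * (g b * h b) + ((if b = a.castSucc then
      q b * (((q a.castSucc * g a.castSucc + q a.succ * g a.succ) / (q a.castSucc + q a.succ) -
        g a.castSucc) * h b) else 0) + if b = a.succ then
      q b * (((q a.castSucc * g a.castSucc + q a.succ * g a.succ) / (q a.castSucc + q a.succ) -
        g a.succ) * h b) else 0) := by
    intro b
    rw [t1_eq]
    split_ifs <;> ring
  unfold ip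
  rw [sum_congr rfl fun b _ => e b, sum_add_distrib, sum_add_distrib, sum_ite_eq', sum_ite_eq',
    if_pos (mem_univ _), if_pos (mem_univ _)]
  field_simp
  ring

include hq in
theorem ip_tt (hN : 1 ≤ N) (g h : Fin (N + 1) → ℝ) :
    ip q (tt q g) h = ip q g h - DD q g h / N := by
  have hN' : (N : ℝ) ≠ 0 := by positivity
  have e : ip q (tt q g) h = (∑ a : Fin N, ip q (t1 q a g) h) / N := by
    unfold ip tt
    rw [sum_comm, sum_div]
    refine sum_congr rfl fun b _ => ?_
    rw [div_mul_eq_mul_div, mul_div_assoc', sum_mul, mul_sum]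
  rw [e, sum_congr rfl fun a _ => ip_t1 hq a g h, sum_sub_distrib, sum_const, card_univ,
    Fintype.card_fin, nsmul_eq_mul, sub_div, mul_div_cancel_left₀ _ hN']
  rfl

theorem ip_comm (g h : Fin (N + 1) → ℝ) : ip q g h = ip q h g := by
  unfold ip
  exact sum_congr rfl fun b _ => by ring

theorem DD_comm (g h : Fin (N + 1) → ℝ) : DD q g h = DD q h g := by
  unfold DD
  exact sum_congr rfl fun b _ => by ring

theorem DD_self (g : Fin (N + 1) → ℝ) : DD q g g = D1 q g := by
  unfold DD D1
  exact sum_congr rfl fun b _ => by ring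

theorem DD_one (g : Fin (N + 1) → ℝ) : DD q g (fun _ => 1) = 0 := by
  unfold DD
  exact sum_eq_zero fun b _ => by ring

include hq in
theorem tt_symm (hN : 1 ≤ N) (g h : Fin (N + 1) → ℝ) : ip q (tt q g) h = ip q g (tt q h) := by
  rw [ip_comm g, ip_tt hq hN, ip_tt hq hN, ip_comm g h, DD_comm g h]

include hq in
theorem tt_mean (hN : 1 ≤ N) (g : Fin (N + 1) → ℝ) :
    ip q (tt q g) (fun _ => 1) = ip q g fun _ => 1 := by
  rw [ip_tt hq hN, DD_one, zero_div, sub_zero]

include hq in
theorem tt_psd (hN : 1 ≤ N) (g : Fin (N + 1) → ℝ) : 0 ≤ ip q (tt q g) g := by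
  have h1 : ∀ a : Fin N, 0 ≤ ip q (t1 q a g) g := by
    intro a
    rw [ip_t1 hq]
    have hA := hq a.castSucc
    have hB := hq a.succ
    have h2 : q a.castSucc * q a.succ / (q a.castSucc + q a.succ) *
        ((g a.succ - g a.castSucc) * (g a.succ - g a.castSucc)) ≤
        q a.castSucc * (g a.castSucc * g a.castSucc) + q a.succ * (g a.succ * g a.succ) := by
      rw [div_mul_eq_mul_div, div_le_iff₀ (add_pos hA hB)]
      nlinarith [sq_nonneg (q a.castSucc * g a.castSucc + q a.succ * g a.succ)]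
    have h3 : q a.castSucc * (g a.castSucc * g a.castSucc) + q a.succ * (g a.succ * g a.succ) ≤
        ip q g g := by
      unfold ip
      rw [← sum_pair (f := fun b => q b * (g b * g b)) (ne_a a)]
      exact sum_le_sum_of_subset_of_nonneg (subset_univ _) fun b _ _ =>
        mul_nonneg (hq b).le (mul_self_nonneg _)
    linarith
  have e : ip q (tt q g) g = (∑ a : Fin N, ip q (t1 q a g) g) / N := by
    unfold ip tt
    rw [sum_comm, sum_div]
    refine sum_congr rfl fun b _ => ?_
    rw [div_mul_eq_mul_div, mul_div_assoc', sum_mul, mul_sum]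
  rw [e]
  exact div_nonneg (sum_nonneg fun a _ => h1 a) (Nat.cast_nonneg _)

include hq in
theorem tt_sub (hN : 1 ≤ N) (g : Fin (N + 1) → ℝ) (c : ℝ) :
    tt q (fun b => g b - c) = fun b => tt q g b - c := by
  have hN' : (N : ℝ) ≠ 0 := by positivity
  funext b
  unfold tt
  have h1 : ∀ a : Fin N, t1 q a (fun b => g b - c) b = t1 q a g b - c := by
    intro a
    have hpos : q a.castSucc + q a.succ ≠ 0 := (add_pos (hq _) (hq _)).ne'
    unfold t1
    split_ifs
    · field_simp
      ring
    · rfl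
  rw [sum_congr rfl fun a _ => h1 a, sum_sub_distrib, sum_const, card_univ, Fintype.card_fin,
    nsmul_eq_mul, sub_div, mul_div_cancel_left₀ _ hN']

theorem ip_self_nonneg (hq : ∀ b, 0 < q b) (g : Fin (N + 1) → ℝ) : 0 ≤ ip q g g :=
  sum_nonneg fun b _ => mul_nonneg (hq b).le (mul_self_nonneg _)

theorem ip_add_left (f g h : Fin (N + 1) → ℝ) (t : ℝ) :
    ip q (fun b => f b + t * g b) h = ip q f h + t * ip q g h := by
  unfold ip
  rw [mul_sum, ← sum_add_distrib]
  exact sum_congr rfl fun b _ => by ring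

theorem tt_add (f g : Fin (N + 1) → ℝ) (t : ℝ) :
    tt q (fun b => f b + t * g b) = fun b => tt q f b + t * tt q g b := by
  funext b
  unfold tt
  rw [mul_div_assoc', ← add_div, mul_sum, ← sum_add_distrib]
  congr 1
  refine sum_congr rfl fun a _ => ?_
  unfold t1
  split_ifs
  · ring
  · rfl

include hq in
theorem cs (hN : 1 ≤ N) (f g : Fin (N + 1) → ℝ) :
    ip q (tt q f) g ^ 2 ≤ ip q (tt q f) f * ip q (tt q g) g := by
  have h1 : ∀ t : ℝ, 0 ≤ ip q (tt q g) g * (t * t) + (2 * ip q (tt q f) g) * t +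
      ip q (tt q f) f := by
    intro t
    have h2 := tt_psd hq hN (fun b => f b + t * g b)
    rw [tt_add, ip_add_left, ip_comm (tt q f), ip_comm (tt q g), ip_add_left, ip_add_left] at h2
    have h3 : ip q f (tt q g) = ip q (tt q f) g := (tt_symm hq hN f g).symm
    rw [h3, ip_comm g (tt q f), ip_comm f (tt q f), ip_comm g (tt q g)] at h2
    linarith
  have h4 := discrim_le_zero h1
  unfold discrim at h4
  nlinarith

include hq in
theorem contr (hN : 1 ≤ N) {K : ℝ} (hK : 0 < K) (hP : P1 q K) (g : Fin (N + 1) → ℝ)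
    (hg : ip q g (fun _ => 1) = 0) :
    0 ≤ ip q (tt q g) g ∧ ip q (tt q g) g ≤ (1 - 1 / (K * N)) * ip q g g := by
  have hN' : (0 : ℝ) < N := by positivity
  refine ⟨tt_psd hq hN g, ?_⟩
  rw [ip_tt hq hN, DD_self]
  obtain ⟨m, hm⟩ := hP g
  have h1 : ∑ b, q b * (g b - m) ^ 2 = ip q g g + m ^ 2 * ∑ b, q b := by
    have h2 : ∑ b, q b * (g b - m) ^ 2 =
        ip q g g - 2 * m * ip q g (fun _ => 1) + m ^ 2 * ∑ b, q b := by
      unfold ip
      rw [mul_sum, mul_sum, ← sum_sub_distrib, ← sum_add_distrib]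
      exact sum_congr rfl fun b _ => by ring
    rw [h2, hg]
    ring
  have h2 : 0 ≤ m ^ 2 * ∑ b, q b := mul_nonneg (sq_nonneg _) (sum_nonneg fun b _ => (hq b).le)
  have h3 : ip q g g ≤ K * D1 q g := by linarith
  have h4 : ip q g g / (K * N) ≤ D1 q g / N := by
    rw [div_le_div_iff₀ (by positivity) hN']
    nlinarith
  have h5 : (1 - 1 / (K * N)) * ip q g g = ip q g g - ip q g g / (K * N) := by ring
  rw [h5]
  linarith

end

theorem oneop : Q289.OP.S_1OP := by
  intro N q K hN hq hK hP
  have hN' : (0 : ℝ) < N := by positivity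
  have hQ : 0 < ∑ b, q b := sum_pos (fun b _ => hq b) univ_nonempty
  have hγ : 0 ≤ 1 - 1 / (K * (N : ℝ)) := by
    -- a function of mean zero
    obtain ⟨g, hg⟩ : ∃ g : Fin (N + 1) → ℝ, g = fun b => if b = 0 then q (Fin.last N) else
      if b = Fin.last N then - q 0 else 0 := ⟨_, rfl⟩
    have hne : (0 : Fin (N + 1)) ≠ Fin.last N := by
      intro h
      have := congrArg Fin.val h
      simp at this
      omega
    have h1 : ip q g (fun _ => 1) = 0 := by
      unfold ip
      have e : ∀ b, q b * (g b * 1) = (if b = 0 then q b * q (Fin.last N) else 0) +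
          if b = Fin.last N then - (q b * q 0) else 0 := by
        intro b
        rw [hg]
        dsimp only
        by_cases hb : b = 0
        · rw [if_pos hb, if_pos hb, if_neg (by rw [hb]; exact hne)]
          ring
        · rw [if_neg hb, if_neg hb]
          split_ifs <;> ring
      rw [sum_congr rfl fun b _ => e b, sum_add_distrib, sum_ite_eq', sum_ite_eq',
        if_pos (mem_univ _), if_pos (mem_univ _)]
      ring
    have h2 : 0 < ip q g g := by
      refine sum_pos' (fun b _ => mul_nonneg (hq b).le (mul_self_nonneg _)) ⟨0, mem_univ _, ?_⟩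
      have : g 0 = q (Fin.last N) := by rw [hg]; simp
      rw [this]
      exact mul_pos (hq _) (mul_pos (hq _) (hq _))
    obtain ⟨h3, h4⟩ := contr hq hN hK hP g h1
    exact nonneg_of_mul_nonneg_left (h3.trans h4) h2
  refine ⟨hγ, ?_⟩
  obtain ⟨γ, hγd⟩ : ∃ γ, γ = 1 - 1 / (K * (N : ℝ)) := ⟨_, rfl⟩
  rw [← hγd] at hγ ⊢
  -- one step
  have step : ∀ g : Fin (N + 1) → ℝ, ip q g (fun _ => 1) = 0 →
      ip q (tt q g) (tt q g) ≤ γ ^ 2 * ip q g g := by
    intro g hg
    have h1 := contr hq hN hK hP g hg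
    have h2 := contr hq hN hK hP (tt q g) (by rw [tt_mean hq hN]; exact hg)
    rw [← hγd] at h1 h2
    have h3 := cs hq hN g (tt q g)
    have h4 := ip_self_nonneg hq (tt q g)
    have h5 := ip_self_nonneg hq g
    rcases eq_or_lt_of_le h4 with h6 | h6
    · rw [← h6]
      positivity
    · have h7 : ip q (tt q g) (tt q g) ^ 2 ≤ (γ * ip q g g) * (γ * ip q (tt q g) (tt q g)) :=
        h3.trans (mul_le_mul h1.2 h2.2 h2.1 (mul_nonneg hγ h5))
      have h8 : ip q (tt q g) (tt q g) * ip q (tt q g) (tt q g) ≤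
          (γ ^ 2 * ip q g g) * ip q (tt q g) (tt q g) := by nlinarith
      exact le_of_mul_le_mul_right h8 h6
  intro m g
  obtain ⟨μ, hμ⟩ : ∃ μ, μ = m1 q g := ⟨_, rfl⟩
  rw [← hμ]
  have hg0 : ip q (fun b => g b - μ) (fun _ => 1) = 0 := by
    have h1 : ip q (fun b => g b - μ) (fun _ => 1) = (∑ b, q b * g b) - μ * ∑ b, q b := by
      unfold ip
      rw [mul_sum, ← sum_sub_distrib]
      exact sum_congr rfl fun b _ => by ring
    rw [h1, hμ]
    unfold m1
    field_simp
    ring
  have hiter : ∀ m : ℕ, (tt q)^[m] (fun b => g b - μ) = fun b => ((tt q)^[m] g) b - μ := by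
    intro m
    induction m with
    | zero => rfl
    | succ m ih =>
      rw [Function.iterate_succ_apply', ih, tt_sub hq hN, Function.iterate_succ_apply']
  have hmean : ∀ m : ℕ, ip q ((tt q)^[m] (fun b => g b - μ)) (fun _ => 1) = 0 := by
    intro m
    induction m with
    | zero => exact hg0
    | succ m ih => rw [Function.iterate_succ_apply', tt_mean hq hN]; exact ih
  have hfin : ∀ m : ℕ, ip q ((tt q)^[m] (fun b => g b - μ)) ((tt q)^[m] (fun b => g b - μ)) ≤
      γ ^ (2 * m) * ip q (fun b => g b - μ) (fun b => g b - μ) := by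
    intro m
    induction m with
    | zero => simp
    | succ m ih =>
      rw [Function.iterate_succ_apply']
      refine (step _ (hmean m)).trans ?_
      calc γ ^ 2 * ip q ((tt q)^[m] (fun b => g b - μ)) ((tt q)^[m] (fun b => g b - μ)) ≤
          γ ^ 2 * (γ ^ (2 * m) * ip q (fun b => g b - μ) (fun b => g b - μ)) :=
            mul_le_mul_of_nonneg_left ih (sq_nonneg _)
        _ = _ := by ring
  have h1 := hfin m
  rw [hiter] at h1
  unfold ip at h1
  simp only [pow_two] at h1 ⊢
  exact h1

end Pool.Agent.Q151.OP
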