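import Pool.Agent.Q289.OP.Stm

/-!
# Project OP (helper289), job S_PRO (helper151)
-/

set_option autoImplicit false
set_option linter.all false

namespace Pool.Agent.Q151.OP

open Q289.OP Finset
open scoped Classical

section
variable {α : Type} [Fintype α] (r : α → α → Prop) (w : α → ℝ)

/-- conditional expectation for a relation -/
noncomputable def E (F : α → ℝ) (c : α) : ℝ :=
  (∑ d, if r c d then w d * F d else 0) / ∑ d, if r c d then w d else 0

variable {r w} (hrefl : ∀ c, r c c) (hsymm : ∀ c d, r c d → r d c)
  (htrans : ∀ c d e, r c d → r d e → r c e)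

include hsymm htrans in
theorem W_inv (F : α → ℝ) {c d : α} (h : r c d) :
    (∑ e, if r c e then F e else 0) = ∑ e, if r d e then F e else 0 := by
  refine sum_congr rfl fun e _ => ?_
  have : r c e ↔ r d e := ⟨fun h1 => htrans _ _ _ (hsymm _ _ h) h1, fun h1 => htrans _ _ _ h h1⟩
  simp only [this]

include hrefl in
theorem w_zero (hw : ∀ c, 0 ≤ w c) {c : α} (h : (∑ d, if r c d then w d else 0) = 0) :
    w c = 0 := by
  have h1 := (sum_eq_zero_iff_of_nonneg (fun d _ => by
    split_ifs
    · exact hw d
    · exact le_rfl)).1 h c (mem_univ c)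
  rwa [if_pos (hrefl c)] at h1

include hsymm htrans in
theorem E_symm (F G : α → ℝ) :
    ∑ c, w c * (E r w F c * G c) = ∑ c, w c * (F c * E r w G c) := by
  have e1 : ∀ F G : α → ℝ, ∑ c, w c * (E r w F c * G c) = ∑ c, ∑ d, if r c d then
      w c * w d * F d * G c / (∑ e, if r c e then w e else 0) else 0 := by
    intro F G
    refine sum_congr rfl fun c _ => ?_
    unfold E
    rw [div_mul_eq_mul_div, mul_div_assoc', sum_mul, mul_sum, sum_div]
    refine sum_congr rfl fun d _ => ?_
    split_ifs
    · ring
    · simp
  have e2 : ∑ c, w c * (F c * E r w G c) = ∑ c, w c * (E r w G c * F c) :=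
    sum_congr rfl fun c _ => by ring
  rw [e2, e1, e1, sum_comm]
  refine sum_congr rfl fun c _ => sum_congr rfl fun d _ => ?_
  by_cases h : r c d
  · rw [if_pos h, if_pos (hsymm _ _ h), W_inv hsymm htrans w h]
    ring
  · rw [if_neg h, if_neg (fun h1 => h (hsymm _ _ h1))]

include hrefl in
theorem E_one (hw : ∀ c, 0 ≤ w c) (c : α) : w c * E r w (fun _ => 1) c = w c := by
  unfold E
  simp only [mul_one]
  by_cases h : (∑ d, if r c d then w d else 0) = 0
  · rw [w_zero hrefl hw h]
    simp
  · rw [div_self h, mul_one]

include hrefl hsymm htrans in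
theorem E_E (hw : ∀ c, 0 ≤ w c) (G : α → ℝ) (c : α) :
    w c * E r w (E r w G) c = w c * E r w G c := by
  by_cases h : (∑ d, if r c d then w d else 0) = 0
  · rw [w_zero hrefl hw h]
    simp
  · congr 1
    have h1 : ∀ d, r c d → E r w G d = E r w G c := by
      intro d hd
      unfold E
      rw [W_inv hsymm htrans w hd, W_inv hsymm htrans (fun e => w e * G e) hd]
    have h2 : (∑ d, if r c d then w d * E r w G d else 0) =
        (∑ d, if r c d then w d else 0) * E r w G c := by
      rw [sum_mul]
      refine sum_congr rfl fun d _ => ?_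
      split_ifs with hd
      · rw [h1 d hd]
      · simp
    show (∑ d, if r c d then w d * E r w G d else 0) / (∑ d, if r c d then w d else 0) =
      E r w G c
    rw [h2, mul_comm, mul_div_assoc, div_self h, mul_one]

end

theorem pro : Q289.OP.S_PRO := by
  intro ι _ _ _ N w hw a F G
  have hrefl : ∀ c : ι → Fin (N + 1), blk a c c := fun c i => Or.inl rfl
  have hsymm : ∀ c d : ι → Fin (N + 1), blk a c d → blk a d c := by
    intro c d h i
    rcases h i with h1 | h1
    · exact Or.inl h1.symm
    · exact Or.inr ⟨h1.2, h1.1⟩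
  have htrans : ∀ c d e : ι → Fin (N + 1), blk a c d → blk a d e → blk a c e := by
    intro c d e h h' i
    rcases h i with h1 | h1 <;> rcases h' i with h2 | h2
    · exact Or.inl (h2.trans h1)
    · right
      rw [h1] at h2
      exact h2
    · right
      rw [h2]
      exact h1
    · exact Or.inr ⟨h1.1, h2.2⟩
  have key := fun F G => E_symm (r := blk a) (w := w) hsymm htrans F G
  refine ⟨key F G, ?_, ?_⟩
  · refine (key F (cE w a G)).trans (sum_congr rfl fun c _ => ?_)
    have h1 := E_E (r := blk a) (w := w) hrefl hsymm htrans hw G c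
    have h2 : w c * (F c * E (blk a) w (cE w a G) c) = F c * (w c * E (blk a) w (E (blk a) w G) c) := by
      show w c * (F c * E (blk a) w (E (blk a) w G) c) = _
      ring
    rw [h2, h1]
    show F c * (w c * E (blk a) w G c) = w c * (F c * E (blk a) w G c)
    ring
  · have h1 := key F (fun _ => 1)
    refine Eq.trans (sum_congr rfl fun c _ => ?_) (h1.trans (sum_congr rfl fun c _ => ?_))
    · rw [mul_one]
      rfl
    · have h2 := E_one (r := blk a) (w := w) hrefl hw c
      calc w c * (F c * E (blk a) w (fun _ => 1) c) = F c * (w c * E (blk a) w (fun _ => 1) c) := by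
            ring
        _ = w c * F c := by rw [h2]; ring

end Pool.Agent.Q151.OP
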